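import Pool.Agent.W921.Jump.Core

/-!
# An iterated group jump is in general not a single group jump

For all infinite countable groups `G` and `H` and every equivalence relation `E` with at least two
classes, the iterated jump of `E` is not Borel reducible to any jump, by a countable group, of a
smooth equivalence relation. The proof is a Baire category argument for the action of the full
power of `G`.
-/

set_option autoImplicit false

open MeasureTheory

namespace Pool.Agent.Results.MP_9b97c3_lc.IteratedJump

/-- The `G`-jump of `E`: the elements `α`, `β` of `G → X` are equivalent if there is `g` in `G` with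
`α (g⁻¹ h) E β h` for all `h` in `G`. -/
def jump (G : Type) [Group G] {X : Type} (E : Setoid X) : Setoid (G → X) where
  r α β := ∃ g : G, ∀ h : G, E (α (g⁻¹ * h)) (β h)
  iseqv :=
    { refl := fun α => ⟨1, fun h => by simp⟩
      symm := by
        rintro α β ⟨g, hg⟩
        exact ⟨g⁻¹, fun h => by simpa using E.symm (hg (g * h))⟩
      trans := by
        rintro α β γ ⟨g, hg⟩ ⟨g', hg'⟩
        refine ⟨g' * g, fun h => ?_⟩
        have h1 := hg (g'⁻¹ * h)
        rw [← mul_assoc, ← mul_inv_rev] at h1
        exact E.trans h1 (hg' h) }

/-- `E` is Borel reducible to `F`: there is a Borel map `f` with `x E x' ↔ f x F f x'`. -/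
def BorelReducible {X Y : Type} [TopologicalSpace X] [TopologicalSpace Y]
    (E : Setoid X) (F : Setoid Y) : Prop :=
  ∃ f : X → Y, @Measurable X Y (borel X) (borel Y) f ∧ ∀ x x' : X, E x x' ↔ F (f x) (f x')

/-- `E` is smooth: there is a Borel map `s` to a Polish space with `x E x' ↔ s x = s x'`. -/
def Smooth {X : Type} [TopologicalSpace X] (E : Setoid X) : Prop :=
  ∃ (Z : Type) (_ : TopologicalSpace Z) (_ : PolishSpace Z) (s : X → Z),
    @Measurable X Z (borel X) (borel Z) s ∧ ∀ x x' : X, E x x' ↔ s x = s x'

/-- Let `G` and `H` be infinite countable groups, `E` an equivalence relation with at least two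
classes on a Polish space and `F` a smooth equivalence relation on a Polish space (for instance,
`E = F` is the equality of a space with two points). Then for every countable group `K` the
iterated jump `(E^[G])^[H]` is not Borel reducible to `F^[K]`. -/
theorem result (G H : Type) [Group G] [Countable G] [Infinite G] [Group H] [Countable H]
    [Infinite H] (X : Type) [TopologicalSpace X] [PolishSpace X] (E : Setoid X)
    (hE : ∃ a b : X, ¬ E a b) (X' : Type) [TopologicalSpace X'] [PolishSpace X'] (F : Setoid X')
    (hF : Smooth F) (K : Type) [Group K] [Countable K] :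
    ¬ BorelReducible (jump H (jump G E)) (jump K F) := by
  classical
  rintro ⟨f, hf, hred⟩
  obtain ⟨Z, _, _, s, hs, hsE⟩ := hF
  obtain ⟨a, b, hab⟩ := hE
  borelize X X' Z
  rw [← BorelSpace.measurable_eq (α := H → G → X), ← BorelSpace.measurable_eq (α := K → X')] at hf
  let i : Pool.Agent.W921.Jump.P H G → (H → G → X) := fun β h g => if β h g = true then a else b
  have hi : Continuous i := by
    refine continuous_pi fun h => continuous_pi fun g => ?_
    have h1 : Continuous (fun β : Pool.Agent.W921.Jump.P H G => β h g) :=
      (continuous_apply g).comp (continuous_apply h)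
    exact (continuous_of_discreteTopology (f := fun c : Bool => if c = true then a else b)).comp h1
  let φ : Pool.Agent.W921.Jump.P H G → (K → Z) := fun β k => s (f (i β) k)
  have hφ : Measurable φ := by
    refine measurable_pi_lambda _ fun k => ?_
    exact hs.comp ((measurable_pi_apply k).comp (hf.comp hi.measurable))
  have hiE : ∀ β β' h g h' g', E (i β h g) (i β' h' g') → β h g = β' h' g' := by
    intro β β' h g h' g' hE
    simp only [i] at hE
    by_cases h1 : β h g = true <;> by_cases h2 : β' h' g' = true
    · rw [h1, h2]
    · rw [if_pos h1, if_neg h2] at hE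
      exact absurd hE hab
    · rw [if_neg h1, if_pos h2] at hE
      exact absurd (E.symm hE) hab
    · rw [Bool.not_eq_true] at h1 h2
      rw [h1, h2]
  refine Pool.Agent.W921.Jump.core (G := G) (H := H) (f := φ) hφ ?_ (ι := K)
    (κ := fun k y h => y (k⁻¹ * h)) ?_ ?_
  · intro β β' hββ
    have h1 : (jump K F) (f (i β)) (f (i β')) := by
      refine ⟨1, fun h => ?_⟩
      rw [inv_one, one_mul, hsE]
      exact congrFun hββ h
    obtain ⟨u, hu⟩ := (hred _ _).2 h1
    refine ⟨u, fun v => ?_⟩
    obtain ⟨g, hg⟩ := hu v
    exact ⟨g, fun t => hiE _ _ _ _ _ _ (hg t)⟩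
  · intro k
    exact measurable_pi_lambda _ fun h => measurable_pi_apply _
  · intro c β
    have h1 : (jump H (jump G E)) (i β) (i (Pool.Agent.W921.Jump.act c β)) := by
      refine ⟨1, fun v => ⟨c v, fun t => ?_⟩⟩
      rw [inv_one, one_mul]
      exact E.refl _
    obtain ⟨k, hk⟩ := (hred _ _).1 h1
    refine ⟨k, funext fun h => ?_⟩
    have := hk h
    rw [hsE] at this
    exact this.symm

end Pool.Agent.Results.MP_9b97c3_lc.IteratedJump
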